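import Pool.Agent.Helper15.LP.Defs

set_option autoImplicit false

open Finset
open scoped Classical
open Pool.Agent.Helper15.LR

namespace Pool.Agent.Helper15.LP

/-- condition on the difference -/
def MGEN_c {Δ : ℕ} (b : Bool) (s t : ZMod Δ) (k : ℕ) : Prop :=
  (if b = true then s - t else t - s).val < k

theorem MGEN_c_symm {Δ : ℕ} (b : Bool) (s t : ZMod Δ) (k : ℕ) :
    MGEN_c b s t k ↔ MGEN_c (!b) t s k := by
  unfold MGEN_c
  cases b <;> simp

theorem MGEN_card0 {Δ : ℕ} [NeZero Δ] (k : ℕ) (hk : k ≤ Δ) :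
    (univ.filter (fun x : ZMod Δ => x.val < k)).card = k := by
  have : (univ.filter (fun x : ZMod Δ => x.val < k)).card = (range k).card := by
    refine Finset.card_bij (fun x _ => x.val) ?_ ?_ ?_
    · intro x hx
      rw [mem_filter] at hx
      exact mem_range.2 hx.2
    · intro x _ y _ h
      exact ZMod.val_injective Δ h
    · intro j hj
      rw [mem_range] at hj
      have hv : ((j : ZMod Δ)).val = j := ZMod.val_natCast_of_lt (lt_of_lt_of_le hj hk)
      refine ⟨(j : ZMod Δ), ?_, hv⟩
      rw [mem_filter]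
      refine ⟨mem_univ _, ?_⟩
      rw [hv]
      exact hj
  rw [this, card_range]

theorem MGEN_card {Δ : ℕ} [NeZero Δ] (b : Bool) (s : ZMod Δ) (k : ℕ) (hk : k ≤ Δ) :
    (univ.filter (fun t : ZMod Δ => MGEN_c b s t k)).card = k := by
  refine Eq.trans ?_ (MGEN_card0 k hk)
  cases b
  · refine Finset.card_bij (fun t _ => t - s) ?_ ?_ ?_
    · intro t ht
      rw [mem_filter] at ht ⊢
      have h := ht.2
      unfold MGEN_c at h
      simp only [Bool.false_eq_true, if_false] at h
      exact ⟨mem_univ _, h⟩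
    · intro x _ y _ h
      exact sub_left_injective h
    · intro x hx
      rw [mem_filter] at hx
      refine ⟨x + s, ?_, by ring⟩
      rw [mem_filter]
      refine ⟨mem_univ _, ?_⟩
      unfold MGEN_c
      simp only [Bool.false_eq_true, if_false, add_sub_cancel_right]
      exact hx.2
  · refine Finset.card_bij (fun t _ => s - t) ?_ ?_ ?_
    · intro t ht
      rw [mem_filter] at ht ⊢
      have h := ht.2
      unfold MGEN_c at h
      simp only [if_true] at h
      exact ⟨mem_univ _, h⟩
    · intro x _ y _ h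
      exact sub_right_injective h
    · intro x hx
      rw [mem_filter] at hx
      refine ⟨s - x, ?_, by ring⟩
      rw [mem_filter]
      refine ⟨mem_univ _, ?_⟩
      unfold MGEN_c
      simp only [if_true, sub_sub_cancel]
      exact hx.2

/-- the regular supergraph -/
def MGEN_H {V : Type} [Fintype V] (F : Set (Sym2 V)) (hF : ∀ v, s(v, v) ∉ F) (Δ : ℕ) :
    SimpleGraph (V × ZMod Δ × Bool) where
  Adj x y := (x.2 = y.2 ∧ s(x.1, y.1) ∈ F) ∨
    (x.1 = y.1 ∧ y.2.2 = !x.2.2 ∧ MGEN_c x.2.2 x.2.1 y.2.1 (Δ - dg F x.1))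
  symm := by
    refine ⟨?_⟩
    rintro x y (⟨h1, h2⟩ | ⟨h1, h2, h3⟩)
    · left
      refine ⟨h1.symm, ?_⟩
      rw [Sym2.eq_swap]
      exact h2
    · right
      refine ⟨h1.symm, ?_, ?_⟩
      · rw [h2, Bool.not_not]
      · rw [← h1, h2]
        exact (MGEN_c_symm _ _ _ _).1 h3
  loopless := by
    refine ⟨?_⟩
    rintro x (⟨-, h2⟩ | ⟨-, h2, -⟩)
    · exact hF _ h2
    · cases hb : x.2.2 <;> rw [hb] at h2 <;> simp at h2

theorem MGEN_reg {V : Type} [Fintype V] (F : Set (Sym2 V)) (hF : ∀ v, s(v, v) ∉ F) (Δ : ℕ)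
    [NeZero Δ] (hd : ∀ v, dg F v ≤ Δ) : Reg (MGEN_H F hF Δ) Δ := by
  rintro ⟨u, s, b⟩
  have h : Nb (MGEN_H F hF Δ) (u, s, b) =
      (nb F u).image (fun v => ((v, s, b) : V × ZMod Δ × Bool)) ∪
      (univ.filter (fun t : ZMod Δ => MGEN_c b s t (Δ - dg F u))).image
        (fun t => ((u, t, !b) : V × ZMod Δ × Bool)) := by
    ext ⟨v, t, c⟩
    simp only [Nb, nb, mem_filter, mem_univ, true_and, mem_union, mem_image, Prod.mk.injEq]
    constructor
    · rintro (⟨h1, h2⟩ | ⟨h1, h2, h3⟩)
      · left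
        simp only [Prod.mk.injEq] at h1
        exact ⟨v, h2, rfl, h1.1, h1.2⟩
      · right
        exact ⟨t, h3, h1, rfl, h2.symm⟩
    · rintro (⟨a, ha, rfl, h1, h2⟩ | ⟨a, ha, h1, h2, h3⟩)
      · left
        refine ⟨?_, ha⟩
        simp only [Prod.mk.injEq]
        exact ⟨h1, h2⟩
      · right
        subst h2
        exact ⟨h1, h3.symm, ha⟩
  rw [h, card_union_of_disjoint, card_image_of_injective, card_image_of_injective,
    MGEN_card b s _ (Nat.sub_le _ _)]
  · have := hd u
    unfold dg at this ⊢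
    omega
  · intro x y hxy
    simp only [Prod.mk.injEq] at hxy
    exact hxy.2.1
  · intro x y hxy
    simp only [Prod.mk.injEq] at hxy
    exact hxy.1
  · rw [Finset.disjoint_left]
    rintro ⟨v, t, c⟩ h1 h2
    simp only [mem_image, Prod.mk.injEq] at h1 h2
    obtain ⟨_, _, _, _, h3⟩ := h1
    obtain ⟨_, _, _, _, h4⟩ := h2
    rw [← h3] at h4
    cases b <;> simp at h4

theorem lp_MainGen (hM : MainReg_stmt) : MainGen_stmt := by
  refine ⟨10 ^ 12 * 400 ^ 5, by positivity, ?_⟩
  intro V _ F D L hn hF hD hL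
  set Δ : ℕ := univ.sup (dg F) with hΔ
  have hle : ∀ v, dg F v ≤ Δ := fun v => Finset.le_sup (f := dg F) (mem_univ v)
  have : Nonempty V := Fintype.card_pos_iff.1 (by omega)
  have hDΔ : (Δ : ℝ) ≤ D := by
    obtain ⟨v, -, hv⟩ := Finset.exists_mem_eq_sup (univ : Finset V) univ_nonempty (dg F)
    rw [hΔ, hv]
    exact hD v
  rcases Nat.eq_zero_or_pos Δ with h0 | hpos
  · refine ⟨fun _ => 0, ?_, ?_⟩
    · intro e he
      exfalso
      induction e using Sym2.ind with
      | h u v =>
        have h1 := hle u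
        rw [h0] at h1
        have h2 : v ∈ nb F u := by
          unfold nb
          rw [mem_filter]
          exact ⟨mem_univ _, he⟩
        have h3 : 0 < (nb F u).card := card_pos.2 ⟨v, h2⟩
        unfold dg at h1
        omega
    · intro u v w huv _ _
      exfalso
      have h1 := hle u
      rw [h0] at h1
      have h2 : v ∈ nb F u := by
        unfold nb
        rw [mem_filter]
        exact ⟨mem_univ _, huv⟩
      have h3 : 0 < (nb F u).card := card_pos.2 ⟨v, h2⟩
      unfold dg at h1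
      omega
  · have : NeZero Δ := ⟨hpos.ne'⟩
    have hn2 : (2 : ℝ) ≤ Fintype.card V := by exact_mod_cast hn
    set n : ℝ := (Fintype.card V : ℝ) with hnn
    have hlog : 0.69 ≤ Real.log n := by
      have h1 := Real.log_two_gt_d9
      have h2 : Real.log 2 ≤ Real.log n := Real.log_le_log (by norm_num) hn2
      linarith
    set m : ℕ := max 60 ⌈300 * Real.log n⌉₊ with hm
    have hm60 : 60 ≤ m := le_max_left _ _
    have hm1 : 300 * Real.log n ≤ m := (Nat.le_ceil _).trans (by exact_mod_cast le_max_right _ _)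
    have hm2 : (m : ℝ) ≤ 400 * Real.log n := by
      rw [hm, Nat.cast_max]
      refine max_le ?_ ?_
      · push_cast; linarith
      · have := Nat.ceil_lt_add_one (show 0 ≤ 300 * Real.log n by linarith)
        linarith
    have hm5 : (10 : ℝ) ^ 12 * (m : ℝ) ^ 5 ≤ 10 ^ 12 * 400 ^ 5 * Real.log n ^ 5 := by
      have h1 : (m : ℝ) ^ 5 ≤ (400 * Real.log n) ^ 5 := pow_le_pow_left₀ (Nat.cast_nonneg _) hm2 5
      rw [mul_pow] at h1
      calc (10 : ℝ) ^ 12 * (m : ℝ) ^ 5 ≤ 10 ^ 12 * (400 ^ 5 * Real.log n ^ 5) := by gcongr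
        _ = _ := by ring
    have hΔn : (Δ : ℝ) ≤ n := by
      obtain ⟨v, -, hv⟩ := Finset.exists_mem_eq_sup (univ : Finset V) univ_nonempty (dg F)
      rw [hΔ, hv]
      have h1 : dg F v ≤ Fintype.card V := card_le_univ _
      rw [hnn]
      exact_mod_cast h1
    have hcardW : (Fintype.card (V × ZMod Δ × Bool) : ℝ) ≤ Real.exp ((m : ℝ) / 100) := by
      rw [Fintype.card_prod, Fintype.card_prod, ZMod.card, Fintype.card_bool]
      push_cast
      rw [← hnn]
      have h1 : Real.exp (3 * Real.log n) ≤ Real.exp ((m : ℝ) / 100) := by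
        apply Real.exp_le_exp.2
        linarith
      have h2 : Real.exp (3 * Real.log n) = n ^ 3 := by
        rw [mul_comm, Real.exp_mul, Real.exp_log (by linarith)]
        norm_cast
      rw [h2] at h1
      refine le_trans ?_ h1
      have h3 : n * (Δ * 2) ≤ n * (n * n) := by
        apply mul_le_mul_of_nonneg_left _ (by linarith)
        exact mul_le_mul hΔn hn2 (by norm_num) (by linarith)
      calc n * (Δ * 2) ≤ n * (n * n) := h3
        _ = n ^ 3 := by ring
    set L' : Sym2 (V × ZMod Δ × Bool) → Finset ℕ := fun e =>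
      if Sym2.map Prod.fst e ∈ F then L (Sym2.map Prod.fst e) else range (Δ + 10 ^ 12 * m ^ 5)
      with hL'
    have hlists : ∀ e ∈ (MGEN_H F hF Δ).edgeSet, Δ + 10 ^ 12 * m ^ 5 ≤ (L' e).card := by
      intro e he
      rw [hL']
      simp only
      split_ifs with h
      · have h1 := hL _ h
        have h2 : ((Δ + 10 ^ 12 * m ^ 5 : ℕ) : ℝ) ≤ ((L (Sym2.map Prod.fst e)).card : ℝ) := by
          push_cast
          linarith
        exact_mod_cast h2
      · rw [card_range]
    obtain ⟨f, hf1, hf2⟩ := hM (V × ZMod Δ × Bool) (MGEN_H F hF Δ) Δ m L' (MGEN_reg F hF Δ hle)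
      hm60 hcardW hlists
    have hadj : ∀ u v, s(u, v) ∈ F → s(((u, 0, false) : V × ZMod Δ × Bool), (v, 0, false)) ∈
        (MGEN_H F hF Δ).edgeSet := by
      intro u v huv
      rw [SimpleGraph.mem_edgeSet]
      left
      exact ⟨rfl, huv⟩
    refine ⟨fun e => f (Sym2.map (fun v => ((v, 0, false) : V × ZMod Δ × Bool)) e), ?_, ?_⟩
    · intro e he
      induction e using Sym2.ind with
      | h u v =>
        have h1 := hf1 _ (hadj u v he)
        have h2 : L' s(((u, 0, false) : V × ZMod Δ × Bool), (v, 0, false)) = L s(u, v) := by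
          rw [hL']
          exact if_pos he
        rw [h2] at h1
        exact h1
    · intro u v w huv huw hvw
      simp only [Sym2.map_mk]
      refine hf2 _ _ _ (hadj u v huv) (hadj u w huw) ?_
      intro h
      exact hvw (Prod.mk.inj h).1

end Pool.Agent.Helper15.LP
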